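import Pool.Agent.H360.KN.Main

/-!
# Proper knotoids whose normalised bracket is congruent to `1` modulo `(30 (1 - t^N))^k`

Library definitions used (starting library `Pool.Agent.H891R2.Jones.Diagram`, `Pool.Agent.W639.RB.Defs`,
`Pool.Agent.Y463.SK.Defs`, `Pool.Agent.H832R3.TW.E`): `Diagram.fPoly` (the normalised bracket
`(-A^{-3})^{w(D)} ⟨D⟩`, `A = T 1`; circles and intervals are counted), `Outer m` (the part of an oriented
diagram outside a box through which `m` strands run, with arbitrary directions), `IsKnotoid D` (the
pieces of `D` form one oriented interval, running from a marked point `tail` to a different marked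
point `head`, and possibly oriented closed curves), `Letter m = Bool × Fin (m - 1)` (the letters
`σ_i^{±1}`; `(true, i)` is `σ_i`), `dia O w` (the diagram with the braid word `w` in the box of `O`),
`permW` (the permutation of a braid word), `IsPure` (the permutation is trivial).

`snail : Outer 4` (starting library `Pool.Agent.Helper52_KD.Defs`): the upper ends of the strands `0`,
`2`, `3` of the box are joined to the lower ends of the strands `1`, `2`, `3` by nested arcs without
crossings; the lower end of the strand `0` is the tail and the upper end of the strand `1` is the head.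
So `dia snail w` is a planar diagram; there are no closed curves if `permW w * swap 0 1` has a single
cycle.

`part2 f` (`Pool.Agent.H360.KN.Main`): the part of the Laurent polynomial `f` in `A` with the exponents
congruent to `2` modulo `4`.

The normalised bracket of a knot-type knotoid (height `0`) is the Jones polynomial of a knot, so that
all its exponents are divisible by `4`; hence a knotoid with `part2 f ≠ 0` is proper.

The proof: the iterated commutators of explicit words in the kernels of the reduced Burau
representation of the braid group on four strands modulo 2, 3, 5 and of twists of two and three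
strands (`Pool.Agent.H360.JK`, files of MP_42db45_gt.UnknotModuloThirty) act trivially modulo the powers
of `30 (1 - t^N)`; the coordinates of a braid word in the Temperley–Lieb algebra are graded modulo 4, and
the odd part of the functional of `snail` is a multiple of `(δ² - 1) ρ₀₀ + A² δ ρ₁₀ - ρ₁₁ - ρ₂₂` plus terms
from the representations of dimensions 1 and 2 (`ρ` the reduced Burau matrix); the 7-adic valuations at
`A = 1/7` tell the odd parts apart.
-/

set_option autoImplicit false

namespace Pool.Agent.Results.MP_79b4ff_gt.ProperModuloThirty

open LaurentPolynomial Pool.Agent.H891R2.Jones Pool.Agent.W639.RB Pool.Agent.Y463.SK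
  Pool.Agent.H832R3.TW Pool.Agent.Helper52_KD Pool.Agent.H360.KN

/-- Put `t = T (-4)`.  For all `N ≥ 1` and `k` there are pure `4`-braid words `u 0, u 1, u 2, …` such
that

* inserting `u i` at any place of a braid word drawn in a box of any oriented diagram of a knotoid
  or link (any directions of the four strands) changes the normalised bracket only by a multiple of
  `(30 (1 - t^N))^k`;
* the diagrams `K_i = dia snail (σ_2 σ_1 u i)` are diagrams of knotoids, each of them a single interval,
  whose normalised brackets are congruent to `1` modulo `(30 (1 - t^N))^k`, have even exponents, and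
  have an exponent congruent to `2` modulo `4` (so the `K_i` are proper);
* the parts of these normalised brackets with the exponents congruent to `2` modulo `4` are pairwise
  different. -/
theorem result (N k : ℕ) (hN : 1 ≤ N) : ∃ u : ℕ → List (Letter 4),
    (∀ i, IsPure (u i)) ∧
    (∀ i (O : Outer 4) (v w : List (Letter 4)),
      (30 * (1 - T (-4) ^ N) : ℤ[T;T⁻¹]) ^ k ∣
        (dia O (v ++ u i ++ w)).fPoly - (dia O (v ++ w)).fPoly) ∧
    (∀ i, IsKnotoid (dia snail ([(true, 2), (true, 1)] ++ u i)) ∧
      (∀ x y, (permW ([(true, 2), (true, 1)] ++ u i) * Equiv.swap 0 1).SameCycle x y) ∧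
      (30 * (1 - T (-4) ^ N) : ℤ[T;T⁻¹]) ^ k ∣
        (dia snail ([(true, 2), (true, 1)] ++ u i)).fPoly - 1 ∧
      (∀ n : ℤ, (dia snail ([(true, 2), (true, 1)] ++ u i)).fPoly.coeff n ≠ 0 → (2 : ℤ) ∣ n) ∧
      (∃ n : ℤ, (4 : ℤ) ∣ n - 2 ∧
        (dia snail ([(true, 2), (true, 1)] ++ u i)).fPoly.coeff n ≠ 0)) ∧
    Function.Injective (fun i => part2 (dia snail ([(true, 2), (true, 1)] ++ u i)).fPoly) :=
  Pool.Agent.H360.KN.main N k hN

end Pool.Agent.Results.MP_79b4ff_gt.ProperModuloThirty
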