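import Pool.Agent.H756.RK.FinK

/-!
# The normalised bracket of random knotoids

Library (`Pool.Graph.R_seed8.H832R2.JR.Defs`, `Pool.Graph.R_seed8.H832R3.VJ.Defs`): a knotoid diagram with `N`
crossings is given by a Gauss word `G : GaussWord N` (the place `G (c, b)` of each of the two passages
`(c, false)`, `(c, true)` of the crossing `c` when one travels from the tail to the head) and the signs
`w : Fin N → Bool` of the crossings.  `fPoly G w` is the normalised bracket `f`, a Laurent polynomial in
`A = T 1`: `(-A ^ 3) ^ (-w) ∑_s A ^ σ(s) (-A ^ 2 - A ^ (-2)) ^ (|s| - 1)`, where `|s|` is the number of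
components of the state `s`; the interval is counted as the loop which arises when the head is joined to
the tail, which does not change `|s|`.  `moment d F = ∑ k ^ d a_k` for `F = ∑ a_k A ^ k`, that is, `d!` times the
coefficient of `h ^ d` in `F (e ^ h)`.  Mathlib: `LaurentPolynomial.invert F = F (A⁻¹)`.

`Pool.Agent.H756.RP`: `Pt = ℝ × ℝ × ℝ`.

`Pool.Agent.H756.RK`:

* an open polygonal chain with `n` edges is given by its vertices `p : Fin (n + 1) → Pt`; `cpt p i s` is the
  point with the parameter `s` on the edge `i` from `p i` to `p (i + 1)`, `cdet p i j` the determinant of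
  the projections `(x, y, z) ↦ (x, y)` of the edges `i` and `j`;
* `DescribesK p G w`: the projection of the chain `p` is a knotoid diagram and `G`, `w` are its Gauss word
  and signs: there are edges `a x` and parameters `t x` for the passages `x` such that the two passages of a
  crossing have the same projection, any two different points of the chain with the same projection
  are the two passages of a crossing, all passages are interior points of edges, `G` numbers them in their
  order on the chain, and at every crossing the two edges have different directions and heights and `w`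
  is the usual sign;
* `law ρ n`: the law of `n` independent points with the density `ρ`.

Proof.  As for closed polygons (`MP_42db45_gt`, `RandomPolygons`; `MP_5f6b43_gt`, `ChiralPolygons`): small
changes of the heights of vertices which change one crossing with an edge of a further block of edges,
none of them the closing edge; the mixed difference of the `d`-th moment for `d` pairwise interlaced crossings
is `± d! 4 ^ d (3 ^ d - 3) / 2`, also for knotoids; decoupling and the Littlewood-Offord inequality.
-/

set_option autoImplicit false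

namespace Pool.Agent.Results.MP_79b4ff_gt.RandomKnotoids

open MeasureTheory LaurentPolynomial
open scoped ENNReal
open Pool.Agent.H832R2.JR (GaussWord fPoly)
open Pool.Agent.H832R3.VJ (moment)
open Pool.Agent.H756.RP (Pt)
open Pool.Agent.H756.RK (DescribesK law)

/-- Let `ρ` be a probability density in space such that `ρ (x, y, z) ≤ h (x, y)` for an integrable
function `h` and `ρ ≥ b > 0` on a nonempty open set.  Let `K` be the knotoid diagram of a random open
polygonal chain with `n ≥ 2` edges whose `n + 1` vertices are independent with the density `ρ`, and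
let `f = ∑ a_k A ^ k` be its normalised bracket.

* Almost surely the projection of the chain is a knotoid diagram.
* There is a constant `C` such that `f = F` has probability at most `C n ^ (-1/5)` for every Laurent
  polynomial `F`; two independent random knotoids with `m` and `n` edges have the same `f` with
  probability at most `C (max m n) ^ (-1/5)`; and `f (A) = f (A⁻¹)`, which is necessary for `K` to be
  equivalent to its mirror image, has probability at most `C n ^ (-1/10)`.
* For every order `d ≥ 2` there is a constant `C` such that for all `n ≥ 2` and all integers `c` the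
  probability of `∑ k ^ d a_k = c` is at most `C n ^ (-4 / (5 * 2 ^ d))`. -/
theorem result (ρ : Pt → ℝ≥0∞) (hρ : Measurable ρ) (h1 : ∫⁻ q, ρ q = 1) (h : ℝ × ℝ → ℝ≥0∞)
    (hh : Measurable h) (hfin : ∫⁻ q, h q ≠ ∞) (hle : ∀ q, ρ q ≤ h (q.1, q.2.1)) (U : Set Pt)
    (hU : IsOpen U) (hne : U.Nonempty) (b : ℝ≥0∞) (hb : b ≠ 0) (hbU : ∀ q ∈ U, b ≤ ρ q) :
    (∃ C : ℝ, 0 < C ∧
      (∀ n : ℕ, 2 ≤ n →
        (∀ᵐ p ∂(law ρ (n + 1)), ∃ (N : ℕ) (G : GaussWord N) (w : Fin N → Bool),
          DescribesK p G w) ∧
        (∀ F : ℤ[T;T⁻¹], law ρ (n + 1) {p | ∃ (N : ℕ) (G : GaussWord N) (w : Fin N → Bool),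
          DescribesK p G w ∧ fPoly G w = F} ≤ ENNReal.ofReal (C * (n : ℝ) ^ (-(1 / 5) : ℝ))) ∧
        law ρ (n + 1) {p | ∃ (N : ℕ) (G : GaussWord N) (w : Fin N → Bool),
          DescribesK p G w ∧ invert (fPoly G w) = fPoly G w} ≤
          ENNReal.ofReal (C * (n : ℝ) ^ (-(1 / 10) : ℝ))) ∧
      ∀ m n : ℕ, 2 ≤ m → 2 ≤ n →
        ((law ρ (m + 1)).prod (law ρ (n + 1)))
          {z | ∃ (M N : ℕ) (F : GaussWord M) (G : GaussWord N) (v : Fin M → Bool)
            (w : Fin N → Bool), DescribesK z.1 F v ∧ DescribesK z.2 G w ∧
            fPoly F v = fPoly G w} ≤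
          ENNReal.ofReal (C * (max m n : ℝ) ^ (-(1 / 5) : ℝ))) ∧
    ∀ d : ℕ, 2 ≤ d → ∃ C : ℝ, 0 < C ∧ ∀ n : ℕ, 2 ≤ n → ∀ c : ℤ,
      law ρ (n + 1) {p | ∃ (N : ℕ) (G : GaussWord N) (w : Fin N → Bool),
        DescribesK p G w ∧ moment d (fPoly G w) = c} ≤
        ENNReal.ofReal (C * (n : ℝ) ^ (-(4 / (5 * 2 ^ d)) : ℝ)) := by
  have hf := Pool.Agent.H756.RK.finalK ρ hρ h1 h hh hfin hle U hU hne b hb hbU
  constructor
  · obtain ⟨C, hC, h2, h3⟩ := hf 2 le_rfl
    obtain ⟨C', hC', h2', h3'⟩ := hf 3 (by norm_num)
    have e2 : (-(4 / (5 * 2 ^ 2)) : ℝ) = (-(1 / 5) : ℝ) := by norm_num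
    have e3 : (-(4 / (5 * 2 ^ 3)) : ℝ) = (-(1 / 10) : ℝ) := by norm_num
    rw [e2] at h2 h3
    rw [e3] at h2' h3'
    refine ⟨C + C', by positivity, fun n hn => ⟨(h2 n hn).1, fun F => ?_, ?_⟩, fun m n hm hn => ?_⟩
    · refine le_trans (measure_mono ?_) (((h2 n hn).2 (moment 2 F)).trans
        (ENNReal.ofReal_le_ofReal ?_))
      · rintro p ⟨N, G, w, hd, hF⟩
        exact ⟨N, G, w, hd, by rw [hF]⟩
      · exact mul_le_mul_of_nonneg_right (by linarith) (by positivity)
    · refine le_trans (measure_mono ?_) (((h2' n hn).2 0).trans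
        (ENNReal.ofReal_le_ofReal ?_))
      · rintro p ⟨N, G, w, hd, hF⟩
        exact ⟨N, G, w, hd, Pool.Agent.H756.RV.moment3_zero _ hF⟩
      · exact mul_le_mul_of_nonneg_right (by linarith) (by positivity)
    · refine le_trans (measure_mono ?_) ((h3 m n hm hn).trans
        (ENNReal.ofReal_le_ofReal ?_))
      · rintro z ⟨M, N, F, G, v, w, hF, hG, hz⟩
        exact ⟨M, N, F, G, v, w, hF, hG, by rw [hz]⟩
      · exact mul_le_mul_of_nonneg_right (by linarith)
          (Real.rpow_nonneg (le_max_of_le_left (Nat.cast_nonneg _)) _)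
  · intro d hd
    obtain ⟨C, hC, h2, _⟩ := hf d hd
    exact ⟨C, hC, fun n hn => (h2 n hn).2⟩

end Pool.Agent.Results.MP_79b4ff_gt.RandomKnotoids
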